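import Mathlib
import Pool.Agent.Lib.helper4.Genus

set_option autoImplicit false

namespace Pool.Agent.Results.MP_1fec7a_co.Q1False

open Pool.Agent.Lib.H4Genus

/-- Adjacency in the join of two five-cycles. -/
def adjB (a b : Fin 10) : Prop :=
  a.val / 5 ≠ b.val / 5 ∨ (a.val + 1) % 5 = b.val % 5 ∨ (b.val + 1) % 5 = a.val % 5

instance : DecidableRel adjB := fun a b => by unfold adjB; infer_instance

theorem adjB_symm : ∀ a b, adjB a b → adjB b a := by decide

theorem adjB_irrefl : ∀ a, ¬ adjB a a := by decide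

abbrev V := Fin 300 ⊕ Fin 10

def adj : V → V → Prop
  | Sum.inl a, Sum.inl b => a ≠ b
  | Sum.inl _, Sum.inr _ => True
  | Sum.inr _, Sum.inl _ => True
  | Sum.inr a, Sum.inr b => adjB a b

def G : SimpleGraph V where
  Adj := adj
  symm := ⟨by
    rintro (a | a) (b | b) h
    · exact Ne.symm h
    · trivial
    · trivial
    · exact adjB_symm _ _ h⟩
  loopless := ⟨by
    rintro (a | a) h
    · exact h rfl
    · exact adjB_irrefl _ h⟩

def cond (b : Fin 10) : V → Prop
  | Sum.inl _ => True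
  | Sum.inr a => adjB b a ∧ b < a

def E : Option (Fin 10 × V) → Set V
  | none => Set.range Sum.inl
  | some (b, v) => {x | cond b v ∧ (x = Sum.inr b ∨ x = v)}

theorem one_of {ι : Type} (S : Set ι) (i : ι) (hi : i ∈ S) (h : ∀ j ∈ S, j = i) : S.ncard = 1 := by
  rw [Set.ncard_eq_one]
  exact ⟨i, Set.eq_singleton_iff_unique_mem.2 ⟨hi, h⟩⟩

theorem none_of {ι : Type} (S : Set ι) (h : ∀ j ∈ S, False) : S.ncard = 0 := by
  rw [Set.eq_empty_of_forall_notMem h]
  simp

theorem adjEq : AdjEq E G := by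
  rintro (a | a) (b | b) hne
  · refine ⟨fun _ => one_of _ none ⟨⟨a, rfl⟩, ⟨b, rfl⟩⟩ ?_, fun h => absurd (fun e => hne (by rw [e])) h⟩
    rintro (_ | ⟨c, v⟩) ⟨h1, h2⟩
    · rfl
    · exfalso
      obtain ⟨-, h1 | h1⟩ := h1
      · cases h1
      · obtain ⟨-, h2 | h2⟩ := h2
        · cases h2
        · exact hne (h1.trans h2.symm)
  · refine ⟨fun _ => one_of _ (some (b, Sum.inl a))
      ⟨⟨trivial, Or.inr rfl⟩, ⟨trivial, Or.inl rfl⟩⟩ ?_, fun h => absurd trivial h⟩
    rintro (_ | ⟨c, v⟩) ⟨h1, h2⟩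
    · obtain ⟨x, hx⟩ := h2
      cases hx
    · obtain ⟨-, h1 | h1⟩ := h1
      · cases h1
      · subst h1
        obtain ⟨-, h2 | h2⟩ := h2
        · cases h2
          rfl
        · cases h2
  · refine ⟨fun _ => one_of _ (some (a, Sum.inl b))
      ⟨⟨trivial, Or.inl rfl⟩, ⟨trivial, Or.inr rfl⟩⟩ ?_, fun h => absurd trivial h⟩
    rintro (_ | ⟨c, v⟩) ⟨h1, h2⟩
    · obtain ⟨x, hx⟩ := h1
      cases hx
    · obtain ⟨-, h2 | h2⟩ := h2
      · cases h2
      · subst h2
        obtain ⟨-, h1 | h1⟩ := h1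
        · cases h1
          rfl
        · cases h1
  · have hab : a ≠ b := fun e => hne (by rw [e])
    have key : ∀ c v, Sum.inr a ∈ E (some (c, v)) → Sum.inr b ∈ E (some (c, v)) →
        (c = a ∧ v = Sum.inr b ∧ adjB a b ∧ a < b) ∨ (c = b ∧ v = Sum.inr a ∧ adjB b a ∧ b < a) := by
      rintro c v ⟨hc, h1 | h1⟩ ⟨-, h2 | h2⟩
      · exact absurd (h1.trans h2.symm) hne
      · cases h1
        subst h2
        exact Or.inl ⟨rfl, rfl, hc⟩
      · cases h2
        subst h1
        exact Or.inr ⟨rfl, rfl, hc⟩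
      · exact absurd (h1.trans h2.symm) hne
    constructor
    · intro h
      rcases lt_or_gt_of_ne hab with hlt | hlt
      · refine one_of _ (some (a, Sum.inr b)) ⟨⟨⟨h, hlt⟩, Or.inl rfl⟩, ⟨⟨h, hlt⟩, Or.inr rfl⟩⟩ ?_
        rintro (_ | ⟨c, v⟩) ⟨h1, h2⟩
        · obtain ⟨x, hx⟩ := h1
          cases hx
        · rcases key c v h1 h2 with ⟨rfl, rfl, -⟩ | ⟨-, -, -, h3⟩
          · rfl
          · exact absurd hlt (not_lt.2 h3.le)
      · refine one_of _ (some (b, Sum.inr a))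
          ⟨⟨⟨adjB_symm _ _ h, hlt⟩, Or.inr rfl⟩, ⟨⟨adjB_symm _ _ h, hlt⟩, Or.inl rfl⟩⟩ ?_
        rintro (_ | ⟨c, v⟩) ⟨h1, h2⟩
        · obtain ⟨x, hx⟩ := h1
          cases hx
        · rcases key c v h1 h2 with ⟨-, -, -, h3⟩ | ⟨rfl, rfl, -⟩
          · exact absurd hlt (not_lt.2 h3.le)
          · rfl
    · intro h
      apply none_of
      rintro (_ | ⟨c, v⟩) ⟨h1, h2⟩
      · obtain ⟨x, hx⟩ := h1
        cases hx
      · rcases key c v h1 h2 with ⟨-, -, h3, -⟩ | ⟨-, -, h3, -⟩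
        · exact h h3
        · exact h (adjB_symm _ _ h3)

def ed : Fin 300 ⊕ (Fin 10 × V) ⊕ (Fin 10 × V) → Sym2 (V ⊕ Option (Fin 10 × V))
  | Sum.inl k => s(Sum.inl (Sum.inl k), Sum.inr none)
  | Sum.inr (Sum.inl (b, v)) => s(Sum.inl (Sum.inr b), Sum.inr (some (b, v)))
  | Sum.inr (Sum.inr (b, v)) => s(Sum.inl v, Sum.inr (some (b, v)))

theorem ed_surj (v : V) (i : Option (Fin 10 × V)) (h : v ∈ E i) :
    ∃ t, ed t = s(Sum.inl v, Sum.inr i) := by
  rcases i with _ | ⟨b, w⟩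
  · obtain ⟨k, rfl⟩ := h
    exact ⟨Sum.inl k, rfl⟩
  · obtain ⟨-, rfl | rfl⟩ := h
    · exact ⟨Sum.inr (Sum.inl (b, w)), rfl⟩
    · exact ⟨Sum.inr (Sum.inr (b, v)), rfl⟩

theorem genus_bound : reducedGenus G ≤ 5000 := by
  refine (reducedGenus_le G E adjEq).trans (genus_le _ _ ?_)
  have h1 : Nat.card (incidence E).edgeSet ≤ _ := card_edges_le _ ed (by
    intro a b hab
    obtain ⟨v, i, h, ⟨rfl, rfl⟩ | ⟨rfl, rfl⟩⟩ := (incidence_adj E a b).1 hab
    · exact ed_surj v i h
    · rw [Sym2.eq_swap]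
      exact ed_surj v i h)
  have h2 : Nat.card (V ⊕ Option (Fin 10 × V)) = 3411 := by
    simp [V]
  have h3 : Nat.card (Fin 300 ⊕ (Fin 10 × V) ⊕ (Fin 10 × V)) = 6500 := by
    simp [V]
  omega

theorem three {C : Type} (c : Fin 5 → C) (h : ∀ i, c i ≠ c (i + 1)) :
    ∃ i, c i ≠ c (i + 2) := by
  by_contra hn
  push Not at hn
  have h0 := hn 0
  have h2 := hn 2
  have h4 := hn 4
  exact h 0 (h0.trans (h2.trans h4))

def lo (i : Fin 5) : Fin 10 := ⟨i.val, by omega⟩

def hi (i : Fin 5) : Fin 10 := ⟨i.val + 5, by omega⟩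

theorem lo_adj : ∀ i, adjB (lo i) (lo (i + 1)) := by decide

theorem hi_adj : ∀ i, adjB (hi i) (hi (i + 1)) := by decide

theorem lh_adj : ∀ i j, adjB (lo i) (hi j) := by decide

theorem add12 : ∀ i : Fin 5, i + 1 + 1 = i + 2 := by decide

theorem not_col : ¬ G.Colorable 305 := by
  rintro ⟨c⟩
  have hc : ∀ u v, adj u v → c u ≠ c v := fun u v h => c.valid h
  obtain ⟨i, hi'⟩ := three (fun i => c (Sum.inr (lo i))) (fun i => hc _ _ (lo_adj i))
  obtain ⟨j, hj⟩ := three (fun i => c (Sum.inr (hi i))) (fun i => hc _ _ (hi_adj i))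
  let w : Fin 6 → Fin 10 := ![lo i, lo (i + 1), lo (i + 2), hi j, hi (j + 1), hi (j + 2)]
  have a1 := hc (Sum.inr _) (Sum.inr _) (lo_adj i)
  have a2 := hc (Sum.inr _) (Sum.inr _) (lo_adj (i + 1))
  have a3 := hc (Sum.inr _) (Sum.inr _) (hi_adj j)
  have a4 := hc (Sum.inr _) (Sum.inr _) (hi_adj (j + 1))
  have a5 := fun x y => hc (Sum.inr _) (Sum.inr _) (lh_adj x y)
  rw [add12] at a2 a4
  have hw : Function.Injective (fun x => c (Sum.inr (w x))) := by
    intro x y hxy
    fin_cases x <;> fin_cases y <;>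
      first
        | rfl
        | exact absurd hxy (a5 _ _)
        | exact absurd hxy.symm (a5 _ _)
        | exact absurd hxy a1
        | exact absurd hxy.symm a1
        | exact absurd hxy a2
        | exact absurd hxy.symm a2
        | exact absurd hxy a3
        | exact absurd hxy.symm a3
        | exact absurd hxy a4
        | exact absurd hxy.symm a4
        | exact absurd hxy hi'
        | exact absurd hxy.symm hi'
        | exact absurd hxy hj
        | exact absurd hxy.symm hj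
  have hinj : Function.Injective
      (Sum.elim (fun k : Fin 300 => c (Sum.inl k)) (fun x : Fin 6 => c (Sum.inr (w x)))) := by
    rintro (x | x) (y | y) hxy
    · by_contra hne
      exact hc (Sum.inl x) (Sum.inl y) (fun e => hne (by rw [e])) hxy
    · exact absurd hxy (hc (Sum.inl x) (Sum.inr _) trivial)
    · exact absurd hxy (hc (Sum.inr _) (Sum.inl y) trivial)
    · rw [hw hxy]
  have := Fintype.card_le_of_injective _ hinj
  simp at this

theorem clq : ∀ s : Finset (Fin 10), (∀ a ∈ s, ∀ b ∈ s, a ≠ b → adjB a b) → s.card ≤ 4 := by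
  decide +kernel

theorem omega_le : G.cliqueNum ≤ 304 := by
  obtain ⟨s, hs⟩ := G.exists_isNClique_cliqueNum
  rw [← hs.card_eq, ← Finset.card_toLeft_add_card_toRight]
  have h1 : s.toLeft.card ≤ 300 := by simpa using Finset.card_le_univ s.toLeft
  have h2 : s.toRight.card ≤ 4 := by
    apply clq
    intro a ha b hb hab
    exact hs.isClique (Finset.mem_toRight.1 ha) (Finset.mem_toRight.1 hb)
      (fun e => hab (Sum.inr_injective e))
  omega

theorem result : ¬ ∀ (g : ℕ) (V : Type) [Finite V] (G : SimpleGraph V), reducedGenus G = g →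
    (G.chromaticNumber.toNat : ℝ) ≤ max (heawood g) ((G.cliqueNum : ℝ) + 1) := by
  intro h
  have h1 := h _ V G rfl
  have h2 : (306 : ℝ) ≤ G.chromaticNumber.toNat := by exact_mod_cast lt_toNat G 305 not_col
  have h3 : (G.cliqueNum : ℝ) ≤ 304 := by exact_mod_cast omega_le
  have h4 : (reducedGenus G : ℝ) ≤ 5000 := by exact_mod_cast genus_bound
  have h5 : Real.sqrt (1 + 48 * (reducedGenus G : ℝ)) ≤ 500 := by
    apply Real.sqrt_le_iff.2
    constructor <;> nlinarith
  rcases le_max_iff.1 h1 with h6 | h6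
  · unfold heawood at h6
    linarith
  · linarith

end Pool.Agent.Results.MP_1fec7a_co.Q1False
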