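import Mathlib
import Pool.Agent.Lib.helper4.Genus

set_option autoImplicit false

namespace Pool.Agent.Results.MP_1fec7a_co.Q2False

open Pool.Agent.Lib.H4Genus

/-- First ends of the thirteen edges of the cube with one edge subdivided (table in base 16):
0, 8, 1, 2, 3, 4, 5, 6, 7, 0, 1, 2, 3. -/
def ea (x : Fin 13) : Fin 9 := Fin.ofNat 9 ((880740577517952 >>> (4 * x.val)) % 16)

/-- Second ends: 8, 1, 2, 3, 0, 5, 6, 7, 4, 4, 5, 6, 7. -/
def eb (x : Fin 13) : Fin 9 := Fin.ofNat 9 ((2081669554123288 >>> (4 * x.val)) % 16)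

def inc (i : Fin 9) (e : Fin 13) : Prop := ea e = i ∨ eb e = i

instance (i : Fin 9) (e : Fin 13) : Decidable (inc i e) := by unfold inc; infer_instance

def adj (e f : Fin 13) : Prop := e ≠ f ∧ (inc (ea e) f ∨ inc (eb e) f)

instance : DecidableRel adj := fun e f => by unfold adj; infer_instance

theorem adj_symm : ∀ e f, adj e f → adj f e := by decide +kernel

/-- The line graph. -/
def G : SimpleGraph (Fin 13) where
  Adj := adj
  symm := ⟨adj_symm⟩
  loopless := ⟨fun _ h => h.1 rfl⟩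

def E (i : Fin 9) : Set (Fin 13) := {e | inc i e}

theorem common : ∀ e f, adj e f → ∃ i, (inc i e ∧ inc i f) ∧ ∀ j, inc j e ∧ inc j f → j = i := by
  decide +kernel

theorem adj_of : ∀ i e f, e ≠ f → inc i e → inc i f → adj e f := by decide +kernel

theorem adjEq : AdjEq E G := by
  intro e f hne
  constructor
  · intro h
    obtain ⟨i, hi, hu⟩ := common e f h
    rw [Set.ncard_eq_one]
    exact ⟨i, Set.eq_singleton_iff_unique_mem.2 ⟨hi, hu⟩⟩
  · intro h
    have h0 : {i | e ∈ E i ∧ f ∈ E i} = ∅ :=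
      Set.eq_empty_of_forall_notMem (fun i hi => h (adj_of i e f hne hi.1 hi.2))
    rw [h0]
    simp

abbrev W := Fin 13 ⊕ Fin 9

def ib : W → W → Prop
  | Sum.inl e, Sum.inr i => inc i e
  | Sum.inr i, Sum.inl e => inc i e
  | _, _ => False

instance : DecidableRel ib := fun a b => by
  cases a <;> cases b <;> unfold ib <;> infer_instance

theorem inc_iff (a b : W) : (incidence E).Adj a b ↔ ib a b := by
  rw [incidence_adj]
  constructor
  · rintro ⟨v, i, h, ⟨rfl, rfl⟩ | ⟨rfl, rfl⟩⟩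
    · exact h
    · exact h
  · intro h
    rcases a with a | a <;> rcases b with b | b
    · exact h.elim
    · exact ⟨a, b, h, Or.inl ⟨rfl, rfl⟩⟩
    · exact ⟨b, a, h, Or.inr ⟨rfl, rfl⟩⟩
    · exact h.elim

def r1 (x : Fin 9) : Fin 13 := Fin.ofNat 13 ((6554209056 >>> (4 * x.val)) % 16)
def r2 (x : Fin 9) : Fin 13 := Fin.ofNat 13 ((2070266537 >>> (4 * x.val)) % 16)
def r3 (x : Fin 9) : Fin 13 := Fin.ofNat 13 ((3344446228 >>> (4 * x.val)) % 16)

def rot : W → Equiv.Perm W
  | Sum.inl e => Equiv.swap (Sum.inr (ea e)) (Sum.inr (eb e))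
  | Sum.inr i => Equiv.swap (Sum.inl (r1 i)) (Sum.inl (r2 i)) *
      Equiv.swap (Sum.inl (r2 i)) (Sum.inl (r3 i))

theorem rot_maps : ∀ v w, ib v (rot v w) ↔ ib v w := by decide +kernel

theorem rot_cyc : ∀ v w x, ib v w → ib v x →
    x = w ∨ x = rot v w ∨ x = rot v (rot v w) := by decide +kernel

theorem isRot : IsRotation (incidence E) rot := by
  intro v
  constructor
  · apply Equiv.bijOn
    intro w
    simp only [SimpleGraph.mem_neighborSet, inc_iff]
    exact rot_maps v w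
  · intro w hw x hx
    rw [SimpleGraph.mem_neighborSet, inc_iff] at hw hx
    rcases rot_cyc v w x hw hx with rfl | rfl | rfl
    · exact Equiv.Perm.SameCycle.refl _ _
    · exact ⟨1, by simp⟩
    · exact ⟨2, by rw [zpow_two]; rfl⟩

def fa (x : Fin 13) : Fin 6 := Fin.ofNat 6 ((1179936321848081 >>> (4 * x.val)) % 16)
def fb (x : Fin 13) : Fin 6 := Fin.ofNat 6 ((636695667015680 >>> (4 * x.val)) % 16)

def lab : W → W → Fin 6
  | Sum.inl e, Sum.inr i => if ea e = i then fa e else fb e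
  | Sum.inr i, Sum.inl e => if ea e = i then fb e else fa e
  | _, _ => 0

theorem lab_inv : ∀ u v, ib u v → lab v (rot v u) = lab u v := by decide +kernel

theorem lab_surj : ∀ k, ∃ u v, ib u v ∧ lab u v = k := by decide +kernel

theorem six_faces : 6 ≤ faces (incidence E) rot := by
  have hs : Function.Surjective (Quot.lift (r := FaceStep (incidence E) rot)
      (fun d => lab d.fst d.snd) (by
        rintro d e ⟨h1, h2⟩
        rw [h1, h2]
        exact (lab_inv _ _ ((inc_iff _ _).1 d.adj)).symm)) := by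
    intro k
    obtain ⟨u, v, h, hk⟩ := lab_surj k
    exact ⟨Quot.mk _ ⟨(u, v), (inc_iff u v).2 h⟩, hk⟩
  have hf : Finite (incidence E).Dart :=
    Finite.of_injective _ SimpleGraph.Dart.toProd_injective
  have hq : Finite (Quot (FaceStep (incidence E) rot)) := Quot.finite _
  have := Nat.card_le_card_of_surjective _ hs
  simp only [Nat.card_eq_fintype_card, Fintype.card_fin] at this
  unfold faces
  omega

def ed (t : Fin 13 × Bool) : Sym2 W := s(Sum.inl t.1, Sum.inr (if t.2 then ea t.1 else eb t.1))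

theorem edges_le : Nat.card (incidence E).edgeSet ≤ 26 := by
  have h : ∀ e i, inc i e → ∃ t, ed t = s(Sum.inl e, Sum.inr i) := by
    rintro e i (rfl | rfl)
    · exact ⟨(e, true), rfl⟩
    · exact ⟨(e, false), rfl⟩
  have h1 : Nat.card (incidence E).edgeSet ≤ _ := card_edges_le _ ed (by
    intro a b hab
    obtain ⟨v, i, h', ⟨rfl, rfl⟩ | ⟨rfl, rfl⟩⟩ := (incidence_adj E a b).1 hab
    · exact h v i h'
    · rw [Sym2.eq_swap]
      exact h v i h')
  simpa using h1

def dep : W → ℕ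
  | Sum.inl e => (![1, 3, 5, 3, 1, 3, 5, 5, 3, 1, 5, 5, 3] : Fin 13 → ℕ) e
  | Sum.inr i => (![0, 4, 4, 2, 2, 4, 6, 4, 2] : Fin 9 → ℕ) i

theorem dep_step : ∀ w, w = Sum.inr 0 ∨ ∃ x, ib x w ∧ dep x < dep w := by decide +kernel

theorem reach (n : ℕ) : ∀ w, dep w < n → (incidence E).Reachable (Sum.inr 0) w := by
  induction n with
  | zero => intro w h; omega
  | succ n ih =>
    intro w h
    rcases dep_step w with rfl | ⟨x, hx, hd⟩
    · exact SimpleGraph.Reachable.refl _
    · exact (ih x (by omega)).trans ((inc_iff _ _).2 hx).reachable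

theorem comp_le : Nat.card (incidence E).ConnectedComponent ≤ 1 := by
  have hp : (incidence E).Preconnected := fun u v =>
    (reach _ u (Nat.lt_succ_self _)).symm.trans (reach _ v (Nat.lt_succ_self _))
  have := hp.subsingleton_connectedComponent
  exact Finite.card_le_one_iff_subsingleton.2 this

theorem genus_zero : reducedGenus G = 0 := by
  apply Nat.eq_zero_of_le_zero
  refine (reducedGenus_le G E adjEq).trans (Nat.sInf_le ⟨rot, isRot, ?_⟩)
  have h1 := edges_le
  have h2 := comp_le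
  have h3 := six_faces
  have h4 : Nat.card (Fin 13 ⊕ Fin 9) = 22 := by simp
  omega

theorem star : ∀ e f, adj e f → ∃ i, ∀ x, (x = e ∨ adj e x) → (x = f ∨ adj f x) → inc i x := by
  decide +kernel

theorem clique_sub (s : Set (Fin 13)) (hs : G.IsClique s) (e f : Fin 13) (he : e ∈ s) (hf : f ∈ s)
    (hne : e ≠ f) : ∃ i, s ⊆ E i ∧ inc i e ∧ inc i f := by
  obtain ⟨i, hi⟩ := star e f (hs he hf hne)
  have h : s ⊆ E i := by
    intro x hx
    apply hi x
    · by_cases h : x = e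
      · exact Or.inl h
      · exact Or.inr (hs he hx (Ne.symm h))
    · by_cases h : x = f
      · exact Or.inl h
      · exact Or.inr (hs hf hx (Ne.symm h))
  exact ⟨i, h, h he, h hf⟩

theorem E_clique (i : Fin 9) : G.IsClique (E i) := fun e he f hf hne => adj_of i e f hne he hf

theorem cp : CliquePartitioned G := by
  intro s t hs ht hst e he f hf
  by_contra hne
  obtain ⟨i, hi, hi1, hi2⟩ := clique_sub s hs.1 e f he.1 hf.1 hne
  obtain ⟨j, hj, hj1, hj2⟩ := clique_sub t ht.1 e f he.2 hf.2 hne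
  obtain ⟨k, -, hk⟩ := common e f (hs.1 he.1 hf.1 hne)
  have hij : i = j := (hk i ⟨hi1, hi2⟩).trans (hk j ⟨hj1, hj2⟩).symm
  subst hij
  exact hst ((Set.Subset.antisymm hi (hs.2 (E_clique i) hi)).trans
    (Set.Subset.antisymm hj (ht.2 (E_clique i) hj)).symm)

theorem star_card : ∀ i, (Finset.univ.filter (fun e => inc i e)).card ≤ 3 := by decide +kernel

theorem omega_le : G.cliqueNum ≤ 3 := by
  obtain ⟨s, hs⟩ := G.exists_isNClique_cliqueNum
  rw [← hs.card_eq]
  by_contra hlt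
  obtain ⟨e, he, f, hf, hne⟩ := Finset.one_lt_card.1 (by omega : 1 < s.card)
  obtain ⟨i, hi, -⟩ := clique_sub s hs.isClique e f he hf hne
  have h : s ⊆ Finset.univ.filter (fun e => inc i e) := by
    intro x hx
    exact Finset.mem_filter.2 ⟨Finset.mem_univ _, hi hx⟩
  have := (Finset.card_le_card h).trans (star_card i)
  omega

set_option synthInstance.maxSize 100000 in
theorem search : ∀ c0 c1 : Fin 3, c0 ≠ c1 → ∀ c4 : Fin 3, c0 ≠ c4 → ∀ c9 : Fin 3, c0 ≠ c9 →
    c4 ≠ c9 → ∀ c2 : Fin 3, c1 ≠ c2 → ∀ c10 : Fin 3, c1 ≠ c10 → c2 ≠ c10 →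
    ∀ c3 : Fin 3, c2 ≠ c3 → c3 ≠ c4 → ∀ c11 : Fin 3, c2 ≠ c11 → c3 ≠ c11 →
    ∀ c12 : Fin 3, c3 ≠ c12 → c4 ≠ c12 → ∀ c5 : Fin 3, c5 ≠ c9 → c5 ≠ c10 →
    ∀ c6 : Fin 3, c5 ≠ c6 → c6 ≠ c10 → c6 ≠ c11 → ∀ c7 : Fin 3, c6 ≠ c7 → c7 ≠ c11 →
    c7 ≠ c12 → ∀ c8 : Fin 3, c7 ≠ c8 → c8 ≠ c12 → c5 ≠ c8 → c8 ≠ c9 → False := by
  decide +kernel

theorem not_col : ¬ G.Colorable 3 := by
  rintro ⟨c⟩
  have hc : ∀ u v, adj u v → c u ≠ c v := fun u v h => c.valid h
  exact search (c 0) (c 1) (hc _ _ (by decide)) (c 4) (hc _ _ (by decide)) (c 9)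
    (hc _ _ (by decide)) (hc _ _ (by decide)) (c 2) (hc _ _ (by decide)) (c 10)
    (hc _ _ (by decide)) (hc _ _ (by decide)) (c 3) (hc _ _ (by decide)) (hc _ _ (by decide))
    (c 11) (hc _ _ (by decide)) (hc _ _ (by decide)) (c 12) (hc _ _ (by decide))
    (hc _ _ (by decide)) (c 5) (hc _ _ (by decide)) (hc _ _ (by decide)) (c 6)
    (hc _ _ (by decide)) (hc _ _ (by decide)) (hc _ _ (by decide)) (c 7) (hc _ _ (by decide))
    (hc _ _ (by decide)) (hc _ _ (by decide)) (c 8) (hc _ _ (by decide)) (hc _ _ (by decide))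
    (hc _ _ (by decide)) (hc _ _ (by decide))

theorem result : ¬ ∀ (g : ℕ) (V : Type) [Finite V] (G : SimpleGraph V), CliquePartitioned G →
    reducedGenus G = g →
    (G.chromaticNumber.toNat : ℝ) ≤ max (heawood g - 1) (G.cliqueNum : ℝ) := by
  intro h
  have h1 := h 0 (Fin 13) G cp genus_zero
  have h2 : (4 : ℝ) ≤ G.chromaticNumber.toNat := by exact_mod_cast lt_toNat G 3 not_col
  have h3 : (G.cliqueNum : ℝ) ≤ 3 := by exact_mod_cast omega_le
  have h4 : heawood 0 = 4 := by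
    unfold heawood
    norm_num
  rcases le_max_iff.1 h1 with h6 | h6 <;> linarith

end Pool.Agent.Results.MP_1fec7a_co.Q2False
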